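import Pool.Agent.Helper85.BM.Assemble
import Pool.Agent.Helper85.BM.TopoWin
import Pool.Agent.Helper85.BM.TopoTac

/-!
# A consistent Hausdorff counterexample to the question of Debs on 2-tactics

The second part is the forcing theorem: a ccc forcing notion `P` forces the combinatorial
principle `Principle Λ f` (written out with names: `Forced P Λ f`).  The first part is the ZFC
theorem that the principle gives a Hausdorff space in which player II has a winning strategy but
no winning 2-tactic in the Banach-Mazur game.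
-/

namespace Pool.Agent.Results.MP_223b64_gt.ConsistentFailure

open Pool.Agent.Helper85.BM

theorem result :
    (∀ (Λ : Type) [LinearOrder Λ] (f : Λ → ℕ → ℕ → ℕ), Principle Λ f →
      ∃ t : TopologicalSpace (ℕ → ℕ),
        @T2Space (ℕ → ℕ) t ∧ @SecondWins (ℕ → ℕ) t ∧ ¬ @TwoTactic (ℕ → ℕ) t) ∧
    ∃ (P : Type) (_ : Preorder P) (Λ : Type) (_ : LinearOrder Λ) (f : Λ → ℕ → ℕ → Name P ℕ),
      Nonempty P ∧ CCC P ∧ Forced P Λ f := by
  constructor
  · intro Λ _ f h
    have hne : Nonempty Λ := by
      by_contra hcon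
      have hE : IsEmpty (Code Λ) := ⟨fun c => hcon ⟨c.2⟩⟩
      obtain ⟨U, -⟩ := h.2 (fun a => hE.elim a) (fun a => hE.elim a)
      exact hE.elim (U 0)
    exact ⟨space f, space_t2 f h.1, space_secondWins f h.1, space_not_twoTactic f h⟩
  · obtain ⟨Λ, hΛ, hne, -, h1, h2⟩ := exists_large
    exact ⟨Cond Λ, inferInstance, Λ, hΛ, fn, inferInstance, cond_ccc, forced_principle h1 h2⟩

end Pool.Agent.Results.MP_223b64_gt.ConsistentFailure
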